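import Pool.Agent.P8H90.BJ.Rand
import Pool.Agent.P8H90.BJ.Hech

/-!
# Consistently `ℵ₁ < 𝔟 < 𝔟_J < 𝔡_J < 𝔡 < cov(N)` for some ideal `J`

The model is obtained in two steps. The first forcing is the Hechler iteration along the product
order of four regular cardinals `κ₁ < κ₂ < κ₃ < κ₄`; the generic functions `e a` are ordered by
`≤*` exactly like the product, and are cofinal. Genericity gives more: for the second coordinate
(and in the same way for the third) the sets `{n | e a n ≤ e b n}`, where `a` is arbitrary with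
`a.2 < b.2` and `b` runs over one line in the direction of the second coordinate, have the strong
finite intersection property. So modulo the ideal they generate the functions on that line form an
increasing cofinal sequence of length `κ₂` (respectively `κ₃`). The ideal `J` is the sum of the two
ideals. The second forcing adds more than `κ₄` random reals. It is bounding, hence it preserves
all of this, and it makes `cov(N)` larger than `κ₄`.

`PhiHolds` and `PsiHolds` are the translations of the propositions `PhiFor` and `PsiFor` into the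
forcing language; a sentence of the forcing language is the set of the conditions which force it.
-/

set_option autoImplicit false

namespace Pool.Agent.Results.MP_07d10b_lc.FiveValuesBelowCovN

open Cardinal Pool.Agent.TH773.PSet Pool.Agent.P8H90.BJ

/-- (A) For all regular cardinals `ℵ₁ < κ₁ < κ₂ < κ₃ < κ₄` there is a ccc forcing all of whose
conditions force `PhiFor κ₁ κ₂ κ₃ κ₄`. (B) If `PhiFor K₁ K₂ K₃ K₄` holds, then all conditions of the
measure algebra that adds more than `#K₄` random reals force `PsiFor K₁ K₂ K₃ K₄`. (C) If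
`PsiFor K₁ K₂ K₃ K₄` holds, then there is an ideal `J` such that `𝔟 = #K₁`, `𝔟_J = #K₂`,
`𝔡_J = #K₃` and `𝔡 = #K₄`, and `ℵ₁ < #K₁ < #K₂ < #K₃ < #K₄ < cov(N)`. -/
theorem result :
    (∀ κ₁ κ₂ κ₃ κ₄ : Cardinal.{0}, κ₁.IsRegular → κ₂.IsRegular → κ₃.IsRegular → κ₄.IsRegular →
      ℵ₁ < κ₁ → κ₁ < κ₂ → κ₂ < κ₃ → κ₃ < κ₄ →
      ∃ (P : Type) (_ : Preorder P), Nonempty P ∧
        (∀ A : Set P, (∀ a ∈ A, ∀ b ∈ A, a ≠ b → ¬ ∃ s, s ≤ a ∧ s ≤ b) → A.Countable) ∧
        ∀ p : P, p ∈ PhiHolds P κ₁.ord.ToType κ₂.ord.ToType κ₃.ord.ToType κ₄.ord.ToType) ∧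
    (∀ (K₁ K₂ K₃ K₄ : Type) [LinearOrder K₁] [LinearOrder K₂] [LinearOrder K₃] [LinearOrder K₄]
      [WellFoundedLT K₁] [WellFoundedLT K₂] [WellFoundedLT K₃] [WellFoundedLT K₄],
      PhiFor K₁ K₂ K₃ K₄ → ∀ I : Type, #K₄ < #I →
        Nonempty (Random I) ∧ ∀ p : Random I, p ∈ PsiHolds (Random I) K₁ K₂ K₃ K₄) ∧
    (∀ (K₁ K₂ K₃ K₄ : Type) [LinearOrder K₁] [LinearOrder K₂] [LinearOrder K₃] [LinearOrder K₄]
      [WellFoundedLT K₁] [WellFoundedLT K₂] [WellFoundedLT K₃] [WellFoundedLT K₄],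
      PsiFor K₁ K₂ K₃ K₄ →
        (∃ J, IsIdeal J ∧ bJ FinIdeal = #K₁ ∧ bJ J = #K₂ ∧ dJ J = #K₃ ∧ dJ FinIdeal = #K₄) ∧
        ℵ₁ < #K₁ ∧ #K₁ < #K₂ ∧ #K₂ < #K₃ ∧ #K₃ < #K₄ ∧ #K₄ < covN) := by
  refine ⟨fun κ₁ κ₂ κ₃ κ₄ h1 h2 h3 h4 l1 l2 l3 l4 =>
    ⟨HP κ₁.ord.ToType κ₂.ord.ToType κ₃.ord.ToType κ₄.ord.ToType, inferInstance, inferInstance,
      fun A hA => ?_, fun p => phiHolds_HP h1 h2 h3 h4 l1 l2 l3 l4 p⟩,
    fun K₁ K₂ K₃ K₄ _ _ _ _ _ _ _ _ h I hI => ⟨⟨⟨Set.univ, MeasurableSet.univ, ?_⟩⟩,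
      fun p => psiHolds h hI p⟩,
    fun K₁ K₂ K₃ K₄ _ _ _ _ _ _ _ _ h => psi_consequences h⟩
  · by_contra hcount
    have hcount' : ¬ Countable A := hcount
    obtain ⟨y, y', hne, h⟩ := ccc_HP A (fun a : A => a.1) hcount'
    exact hA y.1 y.2 y'.1 y'.2 (fun h' => hne (Subtype.ext h')) h
  · rw [MeasureTheory.measure_univ]
    exact one_ne_zero

end Pool.Agent.Results.MP_07d10b_lc.FiveValuesBelowCovN
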